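import Pool.Agent.H.MP_b831a3_al.C

namespace Pool.Agent.Results.MP_b831a3_al.Edge

open Filter Pool.Agent.H.MP_b831a3_al

theorem result (r : ℕ) (hr : 2 ≤ r) (d : ℕ) (ρ : FreeGroup (Fin r) →* Equiv.Perm (Fin d))
    (v : Fin d) (u : FreeGroup (Fin r)) (t : Fin r × Bool) (S : Set (FreeGroup (Fin r)))
    (h1 : ∀ s ∈ S, ρ s v = v)
    (h2 : ∀ s ∈ S, ∀ A B : List (Fin r × Bool), s.toWord = A ++ t :: B →
      ρ (FreeGroup.mk B) v ≠ ρ u v) :
    Tendsto (fun n : ℕ =>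
      (Set.ncard {w ∈ {w | ∃ φ : MulAut (FreeGroup (Fin r)), ∃ m ∈ Subsemigroup.closure S,
          w = φ m} | w.toWord.length ≤ n} : ℝ) /
        Set.ncard {w : FreeGroup (Fin r) | w.toWord.length ≤ n}) atTop (nhds 0) := by
  obtain ⟨P, a, b, c⟩ := edge2 ρ v t u
  refine dens2 hr (Fin d) _ ?_
  rintro _ ⟨φ, m, hm, rfl⟩
  refine QR.aut φ.symm ⟨ρ, v, P, a, b, ?_⟩
  rw [MulEquiv.symm_apply_apply]
  induction hm using Subsemigroup.closure_induction with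
  | mem x h => exact ⟨h1 x h, c x fun M ⟨A, e⟩ => h2 x h A M e.symm⟩
  | mul x y _ _ p q =>
    refine ⟨by rw [map_mul, Equiv.Perm.mul_apply, q.1, p.1], fun g e f => ?_⟩
    rw [mul_assoc]
    exact p.2 _ (q.2 g e f) (by rw [map_mul, Equiv.Perm.mul_apply, f, q.1])

end Pool.Agent.Results.MP_b831a3_al.Edge
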